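import Pool.Agent.L5helper13.TQ.Defs

/-! The span of the characters of a torus is closed under products and inversion. -/

set_option autoImplicit false

namespace Pool.Agent.L5helper13.TQ

open MvPolynomial

theorem AA_mul (k : Type) [Field k] (d : ℕ) (f g : (Fin d → kˣ) → k) (hf : f ∈ AA k d)
    (hg : g ∈ AA k d) : (fun t => f t * g t) ∈ AA k d := by
  induction hf using Submodule.span_induction with
  | mem x hx =>
    obtain ⟨χ, rfl⟩ := hx
    induction hg using Submodule.span_induction with
    | mem y hy =>
      obtain ⟨ψ, rfl⟩ := hy
      refine Submodule.subset_span ⟨χ * ψ, ?_⟩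
      funext t
      rfl
    | zero =>
      have h : (fun t : Fin d → kˣ => χ t * (0 : (Fin d → kˣ) → k) t) = 0 := by
        funext t
        simp
      rw [h]
      exact (AA k d).zero_mem
    | add y z _ _ hy hz =>
      have h : (fun t : Fin d → kˣ => χ t * (y + z) t) =
          (fun t => χ t * y t) + fun t => χ t * z t := by
        funext t
        simp [mul_add]
      rw [h]
      exact (AA k d).add_mem hy hz
    | smul c y _ hy =>
      have h : (fun t : Fin d → kˣ => χ t * (c • y) t) = c • fun t => χ t * y t := by
        funext t
        simp [mul_left_comm]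
      rw [h]
      exact (AA k d).smul_mem c hy
  | zero =>
    have h : (fun t : Fin d → kˣ => (0 : (Fin d → kˣ) → k) t * g t) = 0 := by
      funext t
      simp
    rw [h]
    exact (AA k d).zero_mem
  | add y z _ _ hy hz =>
    have h : (fun t : Fin d → kˣ => (y + z) t * g t) =
        (fun t => y t * g t) + fun t => z t * g t := by
      funext t
      simp [add_mul]
    rw [h]
    exact (AA k d).add_mem hy hz
  | smul c y _ hy =>
    have h : (fun t : Fin d → kˣ => (c • y) t * g t) = c • fun t => y t * g t := by
      funext t
      simp [mul_assoc]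
    rw [h]
    exact (AA k d).smul_mem c hy

theorem AA_inv (k : Type) [Field k] (d : ℕ) (f : (Fin d → kˣ) → k) (hf : f ∈ AA k d) :
    (fun t => f t⁻¹) ∈ AA k d := by
  induction hf using Submodule.span_induction with
  | mem x hx =>
    obtain ⟨χ, rfl⟩ := hx
    refine Submodule.subset_span ⟨χ.comp (invMonoidHom : (Fin d → kˣ) →* (Fin d → kˣ)), ?_⟩
    funext t
    rfl
  | zero => exact (AA k d).zero_mem
  | add y z _ _ hy hz => exact (AA k d).add_mem hy hz
  | smul c y _ hy => exact (AA k d).smul_mem c hy

end Pool.Agent.L5helper13.TQ
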